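import Pool.Agent.N586.AP.Red

/-!
# Affine polynomial projection is `∃ℝ`-hard

The input consists of two polynomials `f`, `g` with integer coefficients in `n` variables (the list of
the nonzero coefficients together with their exponent vectors); the question is whether there are a
real matrix `A` and a real vector `b` with `f(x) = g(Ax + b)` for all `x`.

A system of equations `x_i = 1`, `x_i + x_j = x_k`, `x_i x_j = x_k` is mapped to the quartic polynomial
`G`, the sum of the squares of the equations. It has a solution iff there are `A`, `b` with
`0 = G(Ax + b)`, and iff there are `A`, `b` with `x₀⁴ = (x₀⁴ + G(x₁, …, xₙ))(Ax + b)`: for the converse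
one looks at `x = 0`, where the left side vanishes.
-/

namespace Pool.Agent.Results.MP_ca1301_lc.AffineProjectionHard

open Pool.Agent.NPC Pool.Agent.NPC.ER Pool.Agent.N586.AP

/-- Affine polynomial projection is `∃ℝ`-hard; this holds also for its restriction to `f = 0` and
`deg g ≤ 4`, and for its restriction to the non-constant polynomial `f = x₀⁴` and `deg g ≤ 4`. -/
theorem result : ERHard (lang AffineProjection) ∧ ERHard (lang AffineProjectionZero) ∧
    ERHard (lang AffineProjectionQuartic) :=
  ⟨Pool.Agent.NPC.N586AP.hard, Pool.Agent.NPC.N586AP.hard_zero, Pool.Agent.NPC.N586AP.hard_quartic⟩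

end Pool.Agent.Results.MP_ca1301_lc.AffineProjectionHard
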